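import Mathlib
set_option autoImplicit false
namespace Pool.Agent.Results.MP_eab7e5_al.Counter

/-- `R` is strongly `G`-graded by the additive subgroups `A g`. -/
def StronglyGraded {G R : Type} [Group G] [Ring R] (A : G → Submodule ℤ R) : Prop :=
  iSupIndep A ∧ iSup A = ⊤ ∧ ∀ g h, A g * A h = A (g * h)

/-- the only graded two-sided ideals are `0` and `R`. -/
def GradedSimple {G R : Type} [Ring R] (A : G → Submodule ℤ R) : Prop :=
  ∀ I : TwoSidedIdeal R, (∀ x ∈ I, x ∈ Submodule.span ℤ {y | y ∈ I ∧ ∃ g, y ∈ A g}) →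
    I = ⊥ ∨ I = ⊤

open SkewMonoidAlgebra

section abs
variable {G H B : Type} [Group G] [CommGroup H] [CommRing B] [MulSemiringAction (G × H) B]

theorem cz0 {Γ B : Type} [CommRing B] (c : ℤ) (x : SkewMonoidAlgebra B Γ) (γ : Γ) :
    (c • x).coeff γ = c • x.coeff γ :=
  congrArg (fun z : Γ →₀ B => z γ) (map_zsmul (coeffAddEquiv (k := B) (G := Γ)) c x)

def Gr (H B : Type) [CommRing B] {G : Type} (g : G) : Submodule ℤ (SkewMonoidAlgebra B (G × H)) where
  carrier := {x | ∀ γ : G × H, γ.1 ≠ g → x.coeff γ = 0}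
  add_mem' := fun {a b} ha hb γ h => by simp [ha γ h, hb γ h]
  zero_mem' := fun γ _ => rfl
  smul_mem' := fun c x hx γ h => by rw [cz0, hx γ h, smul_zero]

theorem mem_Gr {g : G} {x : SkewMonoidAlgebra B (G × H)} :
    x ∈ Gr H B g ↔ ∀ γ : G × H, γ.1 ≠ g → x.coeff γ = 0 := Iff.rfl

theorem single_Gr (γ : G × H) (b : B) : single γ b ∈ Gr H B γ.1 := by
  classical
  intro δ h
  rw [coeff_single_apply, if_neg]
  rintro rfl
  exact h rfl

theorem mul_Gr {g h : G} {x y : SkewMonoidAlgebra B (G × H)} (hx : x ∈ Gr H B g)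
    (hy : y ∈ Gr H B h) : x * y ∈ Gr H B (g * h) := by
  intro γ hγ
  rw [coeff_mul_left, sum_def']
  refine Finset.sum_eq_zero fun a ha => ?_
  have : a.1 = g := by
    by_contra hh
    exact mem_support_iff.1 ha (hx a hh)
  rw [hy, smul_zero, mul_zero]
  intro e
  apply hγ
  rw [← e, ← this]; simp

theorem sg : StronglyGraded (fun g : G => Gr H B g) := by
  refine ⟨fun g => ?_, ?_, fun g h => le_antisymm ?_ ?_⟩
  · let K : Submodule ℤ (SkewMonoidAlgebra B (G × H)) :=
      { carrier := {x | ∀ γ : G × H, γ.1 = g → x.coeff γ = 0}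
        add_mem' := fun {a b} ha hb γ h => by simp [ha γ h, hb γ h]
        zero_mem' := fun γ _ => rfl
        smul_mem' := fun c x hx γ h => by rw [cz0, hx γ h, smul_zero] }
    refine Disjoint.mono_right (c := K) (iSup₂_le fun j hj x hx γ hγ => hx γ ?_) ?_
    · rw [hγ]; exact Ne.symm hj
    · rw [Submodule.disjoint_def]
      intro x h1 h2
      ext γ
      by_cases h : γ.1 = g
      · exact h2 γ h
      · exact h1 γ h
  · rw [eq_top_iff]
    intro x _
    induction x using SkewMonoidAlgebra.induction_on with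
    | zero => exact zero_mem _
    | single γ b => exact Submodule.mem_iSup_of_mem γ.1 (single_Gr γ b)
    | add x y hx hy => exact add_mem (hx trivial) (hy trivial)
  · exact Submodule.mul_le.2 fun x hx y hy => mul_Gr hx hy
  · intro x hx
    have e : x = (x * single (h⁻¹, 1) 1) * single (h, 1) 1 := by
      rw [mul_assoc, single_mul_single]; simp [← one_def, ← Prod.one_eq_mk]
    rw [e]
    refine Submodule.mul_mem_mul ?_ (single_Gr (h, (1 : H)) 1)
    simpa using mul_Gr hx (single_Gr (h⁻¹, (1 : H)) 1)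

theorem gs (hF : ∀ (h : H) (b : B), h ≠ 1 → (∀ c, b * (((1 : G), h) • c - c) = 0) → b = 0)
    (hS : ∀ I : Ideal B, (∀ (γ : G × H), ∀ b ∈ I, γ • b ∈ I) → I = ⊥ ∨ I = ⊤) :
    GradedSimple (fun g : G => Gr H B g) := by
  classical
  intro I hI
  by_cases h0 : I = ⊥
  · exact Or.inl h0
  right
  have h1 : ∃ n, ∃ x ∈ I, x ≠ 0 ∧ (∃ g, x ∈ Gr H B g) ∧ x.support.card = n := by
    by_contra hh
    apply h0
    refine eq_bot_iff.2 fun x hx => ?_
    have : Submodule.span ℤ {y | y ∈ I ∧ ∃ g, y ∈ Gr H B g} = ⊥ := by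
      rw [Submodule.span_eq_bot]
      intro y hy
      by_contra hy0
      exact hh ⟨_, y, hy.1, hy0, hy.2, rfl⟩
    have h2 := hI x hx
    rw [this] at h2
    exact h2
  obtain ⟨x0, hx0, hne, ⟨g, hg⟩, hc⟩ := Nat.find_spec h1
  have hmin : ∀ x ∈ I, x ≠ 0 → (∃ g, x ∈ Gr H B g) → Nat.find h1 ≤ x.support.card :=
    fun x a b c => Nat.find_min' h1 ⟨x, a, b, c, rfl⟩
  obtain ⟨δ, hδ⟩ : x0.support.Nonempty := by
    rw [Finset.nonempty_iff_ne_empty]; exact fun h => hne (support_eq_empty.1 h)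
  have hδ' := mem_support_iff.1 hδ
  have hδg : δ.1 = g := by by_contra hh; exact hδ' (hg δ hh)
  let x := x0 * single δ⁻¹ 1
  have hxc : ∀ γ, x.coeff γ = x0.coeff (γ * δ) := by intro γ; simp [x]
  have hxI : x ∈ I := I.mul_mem_right _ _ hx0
  have hx1 : x ∈ Gr H B (1 : G) := by
    have := mul_Gr hg (single_Gr δ⁻¹ (1 : B))
    simpa [hδg] using this
  have hxs : x.support.card ≤ x0.support.card := by
    refine Finset.card_le_card_of_injOn (· * δ) (fun γ h => ?_) (mul_left_injective δ).injOn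
    simpa [hxc] using h
  have hcm : ∀ c : B, x * single 1 c - single 1 c * x = 0 := by
    intro c
    by_contra hz
    have hm := hmin _ (I.sub_mem (I.mul_mem_right _ _ hxI) (I.mul_mem_left _ _ hxI)) hz
      ⟨1, sub_mem (by simpa using mul_Gr hx1 (single_Gr (1 : G × H) c))
        (by simpa using mul_Gr (single_Gr (1 : G × H) c) hx1)⟩
    have : (x * single 1 c - single 1 c * x).support ⊂ x.support := by
      refine ⟨fun γ h => ?_, fun h => ?_⟩
      · rw [mem_support_iff] at h ⊢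
        intro e
        apply h
        simp [e]
      · have : (1 : G × H) ∈ x.support := by simpa [hxc] using hδ'
        have := mem_support_iff.1 (h this)
        apply this
        simp [mul_comm]
    have := Finset.card_lt_card this
    omega
  have hx2 : x = single 1 (x0.coeff δ) := by
    ext γ
    rw [coeff_single_apply]
    split_ifs with h
    · rw [← h, hxc, one_mul]
    · by_cases h2 : γ.1 = 1
      · refine hF γ.2 _ (fun e => h (Prod.ext h2.symm e.symm)) fun c => ?_
        have := congrArg (fun z => z.coeff γ) (hcm c)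
        simp only [coeff_sub, Finsupp.sub_apply, coeff_mul_single_one, coeff_single_one_mul] at this
        rw [← h2, mul_sub, mul_comm _ c]
        exact this
      · exact hx1 γ h2
  let J : Ideal B :=
    { carrier := {b | single (1 : G × H) b ∈ I}
      add_mem' := fun {a b} ha hb => by
        have := I.add_mem ha hb
        rwa [← single_add] at this
      zero_mem' := by simp
      smul_mem' := fun c b hb => by
        have := I.mul_mem_left (single 1 c) _ hb
        simpa using this }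
  rcases hS J (fun γ b hb => by
    have := I.mul_mem_right _ (single γ⁻¹ 1) (I.mul_mem_left (single γ 1) _ hb)
    show single _ _ ∈ I
    simpa using this) with h | h
  · exfalso
    have : x0.coeff δ ∈ J := by show single _ _ ∈ I; rw [← hx2]; exact hxI
    rw [h] at this
    exact hδ' this
  · have : (1 : B) ∈ J := by rw [h]; trivial
    exact (TwoSidedIdeal.one_mem_iff _).1 this

theorem cz (hC : ∀ (γ : G × H) (b : B), γ.1 ≠ 1 → (∀ c, b * (γ • c - c) = 0) →
      (∀ h : H, ((1 : G), h) • b = b) → b = 0) (r : SkewMonoidAlgebra B (G × H))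
    (hr : ∀ a ∈ Gr H B (1 : G), r * a = a * r) : r ∈ Gr H B (1 : G) := by
  intro γ hγ
  refine hC γ _ hγ (fun c => ?_) fun h => ?_
  · have := congrArg (fun z => z.coeff γ) (hr _ (single_Gr (1 : G × H) c))
    simp only [coeff_mul_single_one, coeff_single_one_mul] at this
    rw [mul_sub, this, mul_comm, sub_self]
  · have := congrArg (fun z => z.coeff (γ * (1, h))) (hr _ (single_Gr ((1 : G), h) 1))
    simp only [coeff_mul_single, coeff_single_mul, smul_one, mul_one, one_mul,
      mul_inv_cancel_right] at this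
    have e : ((1 : G), h)⁻¹ * (γ * (1, h)) = γ := by
      ext
      · simp
      · simp [mul_comm, mul_left_comm]
    rw [e] at this
    exact this.symm

theorem ns [Nontrivial B] (γ : G × H) (b : B) (hγ : γ ≠ 1) (hb : b ≠ 0)
    (h : ∀ c, b * (γ • c - c) = 0) : ¬ IsSimpleRing (SkewMonoidAlgebra B (G × H)) := by
  intro hs
  let f : SkewMonoidAlgebra B (G × H) →+* Module.End ℤ B :=
    liftNCRingHom (Module.toModuleEnd ℤ B) (DistribMulAction.toModuleEnd ℤ B) (by
      intro x y; ext c; simp)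
  have hf : ∀ δ a c, f (single δ a) c = a * δ • c := by
    intro δ a c
    show (liftNC _ _ (single δ a) : Module.End ℤ B) c = _
    rw [liftNC_single]; simp
  have : f (single γ b) = f (single 1 b) := by
    ext c
    rw [hf, hf, one_smul, ← sub_eq_zero, ← mul_sub, h]
  exact hγ ((single_left_inj hb).1 (f.injective this))
end abs

open Topology Filter

abbrev T := UnitAddCircle
abbrev Y := T × T
abbrev X := Y × T
abbrev Γ := (Y ≃ₜ Y) × Multiplicative T

def act (γ : Γ) (p : X) : X := (γ.1 p.1, γ.2.toAdd + p.2)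

theorem act_cont (γ : Γ) : Continuous (act γ) := by unfold act; fun_prop
theorem act_mul (γ δ : Γ) (p : X) : act (γ * δ) p = act γ (act δ p) := by
  simp [act, add_assoc]
theorem act_one (p : X) : act 1 p = p := by simp [act]

def LC (f : X → ZMod 2) (p : X) : Prop := ∀ᶠ q in 𝓝 p, f q = f p

theorem LC_open (f : X → ZMod 2) : IsOpen {p | LC f p} := by
  rw [isOpen_iff_mem_nhds]
  intro p hp
  filter_upwards [hp.eventually_nhds, hp] with q h1 h2
  filter_upwards [h1] with r h3
  rw [h3, h2]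

theorem LC2 {f g : X → ZMod 2} (hf : ∀ y, Dense {z | LC f (y, z)})
    (hg : ∀ y, Dense {z | LC g (y, z)}) (y : Y) : Dense {z | LC f (y, z) ∧ LC g (y, z)} :=
  (hf y).inter_of_isOpen_left (hg y) ((LC_open f).preimage (Continuous.prodMk_right y))

def B0 : Subring (X → ZMod 2) where
  carrier := {f | ∀ y, Dense {z | LC f (y, z)}}
  mul_mem' := fun {f g} hf hg y => (LC2 hf hg y).mono fun z h => by
    filter_upwards [h.1, h.2] with q h1 h2
    simp [h1, h2]
  add_mem' := fun {f g} hf hg y => (LC2 hf hg y).mono fun z h => by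
    filter_upwards [h.1, h.2] with q h1 h2
    simp [h1, h2]
  one_mem' := fun y => dense_univ.mono fun z _ => Eventually.of_forall fun _ => rfl
  zero_mem' := fun y => dense_univ.mono fun z _ => Eventually.of_forall fun _ => rfl
  neg_mem' := fun {f} hf y => (hf y).mono fun z h => by
    filter_upwards [h] with q h1
    simp [h1]

theorem near (f g : B0) (p : X) {s : Set X} (hs : s ∈ 𝓝 p) : ∃ q ∈ s, LC f.1 q ∧ LC g.1 q := by
  obtain ⟨z, h1, h2⟩ := (LC2 f.2 g.2 p.1).inter_nhds_nonempty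
    ((Continuous.prodMk_right p.1).continuousAt.preimage_mem_nhds (x := p.2) hs)
  exact ⟨_, h2, h1⟩

def N : Ideal B0 where
  carrier := {f | ∀ p, LC f.1 p → f.1 p = 0}
  add_mem' := fun {f g} hf hg p hp => by
    obtain ⟨q, h1, h2, h3⟩ := near f g p hp
    rw [← (h1 : (f + g).1 q = _)]
    simp [hf q h2, hg q h3]
  zero_mem' := fun p _ => rfl
  smul_mem' := fun g f hf p hp => by
    obtain ⟨q, h1, h2, -⟩ := near f g p hp
    rw [← (h1 : (g • f).1 q = _)]
    simp [hf q h2]

theorem LC_act {f : X → ZMod 2} {γ : Γ} {p : X} (h : LC f (act γ p)) : LC (f ∘ act γ) p :=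
  (act_cont γ).continuousAt.eventually h

def sm (γ : Γ) : B0 →+* B0 where
  toFun f := ⟨f.1 ∘ act γ⁻¹, fun y => by
    have := (f.2 (γ⁻¹.1 y)).preimage (Homeomorph.addLeft γ⁻¹.2.toAdd).isOpenMap
    exact this.mono fun z h => LC_act h⟩
  map_one' := rfl
  map_zero' := rfl
  map_mul' := fun _ _ => rfl
  map_add' := fun _ _ => rfl

theorem sm_ap (γ : Γ) (f : B0) (p : X) : (sm γ f).1 p = f.1 (act γ⁻¹ p) := rfl

theorem sm_N (γ : Γ) : N ≤ N.comap (sm γ) := by
  intro f hf p hp
  refine hf _ ?_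
  have e : act γ (act γ⁻¹ p) = p := by rw [← act_mul, mul_inv_cancel, act_one]
  have := LC_act (γ := γ) (p := act γ⁻¹ p) (f := (sm γ f).1) (by rwa [e])
  convert this using 1
  funext q
  simp [sm_ap, ← act_mul, act_one]

abbrev B := B0 ⧸ N
abbrev mk : B0 →+* B := Ideal.Quotient.mk N

noncomputable instance : MulSemiringAction Γ B where
  smul γ := Ideal.quotientMap N (sm γ) (sm_N γ)
  one_smul b := by
    obtain ⟨f, rfl⟩ := Ideal.Quotient.mk_surjective b
    refine congrArg mk (Subtype.ext (funext fun p => ?_))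
    rw [sm_ap, inv_one, act_one]
  mul_smul γ δ b := by
    obtain ⟨f, rfl⟩ := Ideal.Quotient.mk_surjective b
    refine congrArg mk (Subtype.ext (funext fun p => ?_))
    rw [sm_ap, sm_ap, sm_ap, mul_inv_rev, act_mul]
  smul_zero γ := map_zero (Ideal.quotientMap N (sm γ) (sm_N γ))
  smul_add γ := map_add (Ideal.quotientMap N (sm γ) (sm_N γ))
  smul_one γ := map_one (Ideal.quotientMap N (sm γ) (sm_N γ))
  smul_mul γ := map_mul (Ideal.quotientMap N (sm γ) (sm_N γ))

theorem smul_mk (γ : Γ) (f : B0) : γ • mk f = mk (sm γ f) := rfl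

theorem z2 : ∀ a : ZMod 2, a ≠ 0 → a = 1 := by decide

theorem ne0 (f : B0) : mk f ≠ 0 ↔ ∃ p, ∀ᶠ q in 𝓝 p, f.1 q = 1 := by
  rw [Ne, Ideal.Quotient.eq_zero_iff_mem]
  constructor
  · intro h
    by_contra hh
    refine h fun p hp => ?_
    by_contra h0
    refine hh ⟨p, ?_⟩
    rw [← z2 _ h0]; exact hp
  · rintro ⟨p, hp⟩ h
    have h1 := hp.self_of_nhds
    have := h p (by unfold LC; rw [h1]; exact hp)
    rw [h1] at this
    exact one_ne_zero this

noncomputable def d1 (x p : X) : ℝ := dist p.1 x.1 + dist p.2 x.2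

theorem d1_cont (x : X) : Continuous (d1 x) := by unfold d1; fun_prop

theorem lev (z0 : T) (s : ℝ) : {z | dist z z0 = s}.Finite := by
  refine (Set.toFinite {(s : T) + z0, ((-s : ℝ) : T) + z0}).subset fun z hz => ?_
  obtain ⟨t, ht⟩ := QuotientAddGroup.mk_surjective (z - z0)
  have h : |t - round t| = s := by
    rw [← UnitAddCircle.norm_eq, ht, ← dist_eq_norm]; exact hz
  have e : ((t - round t : ℝ) : T) = z - z0 := by
    rw [AddCircle.coe_sub, ← ht, sub_eq_self, AddCircle.coe_eq_zero_iff]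
    exact ⟨round t, by simp⟩
  rcases abs_cases (t - round t) with h1 | h1
  · left; rw [← h, h1.1, e]; simp
  · right; rw [← h, h1.1, neg_neg, e]; simp

theorem q4 : ((1 / 4 : ℝ) : T) ≠ 0 := by
  rw [← norm_ne_zero_iff, (AddCircle.norm_coe_eq_abs_iff 1 one_ne_zero).2] <;> norm_num

instance : Nontrivial T := ⟨⟨_, _, q4⟩⟩

theorem dia1 (x : X) (r : ℝ) {p : X} (h : d1 x p < r) :
    ∀ᶠ q in 𝓝 p, (if d1 x q < r then (1 : ZMod 2) else 0) = 1 := by
  filter_upwards [(d1_cont x).continuousAt.eventually_lt continuousAt_const h] with q hq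
  rw [if_pos hq]

theorem dia0 (x : X) (r : ℝ) {p : X} (h : r < d1 x p) :
    ∀ᶠ q in 𝓝 p, (if d1 x q < r then (1 : ZMod 2) else 0) = 0 := by
  filter_upwards [continuousAt_const.eventually_lt (d1_cont x).continuousAt h] with q hq
  rw [if_neg (not_lt.2 hq.le)]

noncomputable def dia (x : X) (r : ℝ) : B0 :=
  ⟨fun q => if d1 x q < r then 1 else 0, fun y =>
    (dense_univ.sdiff_finite (lev x.2 (r - dist y x.1))).mono fun z hz => by
      have : d1 x (y, z) ≠ r := fun h => hz.2 (by simp only [d1] at h; simp only [Set.mem_setOf_eq]; linarith)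
      rcases lt_or_gt_of_ne this with h | h
      · show ∀ᶠ q in _, _ = ite _ _ _
        rw [if_pos h]; exact dia1 x r h
      · show ∀ᶠ q in _, _ = ite _ _ _
        rw [if_neg (not_lt.2 h.le)]; exact dia0 x r h⟩

theorem lemL (γ : Γ) (f : B0) (x : X) (hf : ∀ᶠ q in 𝓝 x, f.1 q = 1) (hx : act γ⁻¹ x ≠ x) :
    ∃ c, mk f * (γ • c - c) ≠ 0 := by
  have h0 : 0 < d1 x (act γ⁻¹ x) := by
    by_contra h
    have h1 := dist_nonneg (x := (act γ⁻¹ x).1) (y := x.1)
    have h2 := dist_nonneg (x := (act γ⁻¹ x).2) (y := x.2)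
    unfold d1 at h
    exact hx (Prod.ext (dist_eq_zero.1 (by linarith)) (dist_eq_zero.1 (by linarith)))
  refine ⟨mk (dia x (d1 x (act γ⁻¹ x) / 2)), ?_⟩
  rw [smul_mk, ← map_sub, ← map_mul, ne0]
  refine ⟨x, ?_⟩
  filter_upwards [hf, dia1 x (d1 x (act γ⁻¹ x) / 2) (p := x) (by simpa [d1] using h0),
    (act_cont γ⁻¹).continuousAt.eventually (dia0 x _ (half_lt_self h0))] with q h1 h2 h3
  show f.1 q * (ite _ _ _ - ite _ _ _) = 1
  rw [h1, h2, h3]; decide

theorem hF (h : Multiplicative T) (b : B) (hh : h ≠ 1)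
    (hb : ∀ c, b * (((1, h) : Γ) • c - c) = 0) : b = 0 := by
  obtain ⟨f, rfl⟩ := Ideal.Quotient.mk_surjective b
  by_contra h0
  obtain ⟨x, hx⟩ := (ne0 f).1 h0
  obtain ⟨c, hc⟩ := lemL (1, h) f x hx (fun e => hh (by simpa [act] using congrArg Prod.snd e))
  exact hc (hb c)

theorem hS (I : Ideal B) (hI : ∀ (γ : Γ), ∀ b ∈ I, γ • b ∈ I) : I = ⊥ ∨ I = ⊤ := by
  by_cases h0 : I = ⊥
  · exact Or.inl h0
  right
  obtain ⟨b, hb, hb0⟩ := Submodule.exists_mem_ne_zero_of_ne_bot h0
  obtain ⟨f, rfl⟩ := Ideal.Quotient.mk_surjective b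
  obtain ⟨p, hp⟩ := (ne0 f).1 hb0
  have key : ∃ u : B0, mk u ∈ I ∧ ∀ q ∈ (Set.univ : Set X), u.1 q = 1 := by
    refine isCompact_univ.induction_on (p := fun s => ∃ u : B0, mk u ∈ I ∧ ∀ q ∈ s, u.1 q = 1)
      ⟨0, by simp, by simp⟩ ?_ ?_ ?_
    · rintro s t hst ⟨u, h1, h2⟩
      exact ⟨u, h1, fun q hq => h2 q (hst hq)⟩
    · rintro s t ⟨u, h1, h2⟩ ⟨v, h3, h4⟩
      refine ⟨u + v - u * v, ?_, ?_⟩
      · rw [map_sub, map_add, map_mul]
        exact sub_mem (add_mem h1 h3) (I.mul_mem_left _ h3)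
      · rintro q (hq | hq)
        · simp [h2 q hq]
        · simp [h4 q hq]
    · intro x _
      let γ : Γ := (Homeomorph.addLeft (p.1 - x.1), Multiplicative.ofAdd (p.2 - x.2))
      have e : act γ x = p := by simp [act, γ]
      refine ⟨{q | f.1 (act γ q) = 1}, mem_nhdsWithin_of_mem_nhds ?_, sm γ⁻¹ f, hI _ _ hb, ?_⟩
      · exact (act_cont γ).continuousAt.eventually (e ▸ hp :)
      · intro q hq
        rw [sm_ap, inv_inv]; exact hq
  obtain ⟨u, h1, h2⟩ := key
  have : u = 1 := Subtype.ext (funext fun q => h2 q trivial)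
  rw [this, map_one] at h1
  exact (Ideal.eq_top_iff_one _).2 h1

theorem hC (γ : Γ) (b : B) (hγ : γ.1 ≠ 1) (hb : ∀ c, b * (γ • c - c) = 0)
    (hH : ∀ h : Multiplicative T, ((1, h) : Γ) • b = b) : b = 0 := by
  obtain ⟨f, rfl⟩ := Ideal.Quotient.mk_surjective b
  by_contra h0
  obtain ⟨x, hx⟩ := (ne0 f).1 h0
  let S : ZMod 2 → Set Y := fun a => {y | ∃ z, ∀ᶠ q in 𝓝 (y, z), f.1 q = a}
  have ho : ∀ a, IsOpen (S a) := by
    intro a
    rw [isOpen_iff_mem_nhds]
    rintro y ⟨z, hz⟩
    filter_upwards [(Continuous.prodMk_left z).continuousAt.eventually hz.eventually_nhds] with y' h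
    exact ⟨z, h⟩
  have hc : (S 1)ᶜ = S 0 := by
    ext y
    constructor
    · intro hy
      obtain ⟨z, hz⟩ := (f.2 y).nonempty
      by_cases h : f.1 (y, z) = 0
      · exact ⟨z, h ▸ hz⟩
      · exact absurd ⟨z, z2 _ h ▸ hz⟩ hy
    · rintro ⟨z', h'⟩ ⟨z, h⟩
      let δ : Γ := (1, Multiplicative.ofAdd (z - z'))
      have e : act δ⁻¹ (y, z) = (y, z') := by simp [act, δ]
      have : mk (sm δ f - f) ≠ 0 := by
        refine (ne0 _).2 ⟨(y, z), ?_⟩
        filter_upwards [h, (act_cont δ⁻¹).continuousAt.eventually (e ▸ h' :)] with q h1 h2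
        show f.1 (act δ⁻¹ q) - f.1 q = 1
        rw [h1, h2]; decide
      apply this
      rw [map_sub, ← smul_mk, hH, sub_self]
  have hu : S 1 = Set.univ :=
    IsClopen.eq_univ ⟨by rw [← isOpen_compl_iff, hc]; exact ho 0, ho 1⟩ ⟨x.1, x.2, hx⟩
  obtain ⟨y, hy⟩ : ∃ y, γ⁻¹.1 y ≠ y := by
    by_contra hh
    push Not at hh
    apply hγ
    rw [← inv_eq_one]
    exact Homeomorph.ext hh
  obtain ⟨z, hz⟩ : y ∈ S 1 := by rw [hu]; trivial
  obtain ⟨c, hc⟩ := lemL γ f _ hz (fun e => hy (congrArg Prod.fst e))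
  exact hc (hb c)

noncomputable def ph (a : T) : T := ((max (‖a‖ - 1 / 4) 0 : ℝ) : T)

theorem ph_cont : Continuous ph :=
  (AddCircle.continuous_mk' 1).comp (by fun_prop)

noncomputable def shear : Y ≃ₜ Y where
  toFun y := (y.1, y.2 - ph y.1)
  invFun y := (y.1, y.2 + ph y.1)
  left_inv y := by simp
  right_inv y := by simp
  continuous_toFun := by have := ph_cont; fun_prop
  continuous_invFun := by have := ph_cont; fun_prop

theorem dne : mk (dia 0 (1 / 4)) ≠ 0 := (ne0 _).2 ⟨0, dia1 _ _ (by simp [d1])⟩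

instance : Nontrivial B := ⟨⟨_, _, dne⟩⟩

theorem result : ∃ (G R : Type) (_ : Group G) (_ : Ring R) (A : G → Submodule ℤ R),
    Nontrivial R ∧ StronglyGraded A ∧ GradedSimple A ∧
    {r | ∀ a ∈ A 1, r * a = a * r} = {r | r ∈ A 1 ∧ ∀ a ∈ A 1, r * a = a * r} ∧
    ¬ IsSimpleRing R := by
  refine ⟨Y ≃ₜ Y, SkewMonoidAlgebra B Γ, inferInstance, inferInstance,
    fun g => Gr (Multiplicative T) B g, inferInstance, sg, gs hF hS,
    Set.ext fun r => ⟨fun h => ⟨cz hC r h, h⟩, fun h => h.2⟩, ns (shear, 1) _ ?_ dne ?_⟩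
  · intro h
    have := congrArg (fun γ : Γ => (γ.1 (((1 / 2 : ℝ) : T), 0)).2) h
    simp only [shear, Homeomorph.homeomorph_mk_coe, Equiv.coe_fn_mk, Prod.fst_one,
      Homeomorph.one_apply, zero_sub, neg_eq_zero, ph, AddCircle.norm_half_period_eq] at this
    apply q4
    rw [← this]; norm_num
  · intro c
    obtain ⟨f, rfl⟩ := Ideal.Quotient.mk_surjective c
    rw [smul_mk, ← map_sub, ← map_mul, ← map_zero mk]
    refine congrArg mk (Subtype.ext (funext fun q => ?_))
    show ite _ _ _ * (f.1 (act ((shear, 1) : Γ)⁻¹ q) - f.1 q) = 0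
    split_ifs with h
    · have h1 : ‖q.1.1‖ ≤ 1 / 4 := by
        have h2 := dist_nonneg (x := q.2) (y := (0 : X).2)
        have h3 := norm_fst_le q.1
        simp only [d1, Prod.fst_zero, dist_zero_right] at h
        linarith
      have e : act ((shear, 1) : Γ)⁻¹ q = q := by
        show ((q.1.1, q.1.2 + ph q.1.1), _) = q
        rw [ph, max_eq_right (by linarith)]
        simp
      rw [e]; simp
    · simp

end Pool.Agent.Results.MP_eab7e5_al.Counter
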